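import Pool.Agent.Helper93.OR.Defs
import Pool.Agent.Helper28.TL.Conv

/-!
# OR, block CV: the smoothed count is a convolution
-/

set_option autoImplicit false
open MeasureTheory Set Filter Topology
open Pool.Agent.Helper93.UG (zc sp)
open Pool.Agent.Helper57.NS (cnt)
open Pool.Agent.Helper62.OP (Nt)
open Pool.Agent.Helper93.OR

namespace Pool.Agent.Helper8.OR

/-- CV: the smoothed count is a convolution -/
theorem cv_main {n : ℕ} (hn : 4 ≤ n) {T L : ℝ} (hT : 3 ≤ T) (hL : 1 ≤ L) (t : ℝ) {x : ℝ} (hx : 0 ≤ x) :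
    (∀ v, 0 ≤ rn n T L v) ∧ Integrable (rn n T L) ∧ ∫ v, rn n T L v = 1 ∧
    Integrable (fun v => rn n T L v * cnt T (t + v) (Icc 0 x)) ∧
    ∫ v, rn n T L v * cnt T (t + v) (Icc 0 x) = Nn n T L t x := by
  have hR : 0 < RR n L := Real.rpow_pos_of_pos (by linarith) _
  have hd : dd n ≤ 1 := by
    unfold dd
    have h1 : (4 : ℝ) ≤ n := by exact_mod_cast hn
    rw [div_le_one (by linarith)]
    linarith
  have hRL : RR n L ≤ L := by
    calc RR n L = L ^ dd n := rfl
      _ ≤ L ^ (1 : ℝ) := Real.rpow_le_rpow_of_exponent_le hL hd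
      _ = L := Real.rpow_one L
  obtain ⟨r1, r2, r3, r4, r5⟩ := Pool.Agent.Helper28.TL.H82.rho_facts (k := dd n / 100) hR hRL hT
  obtain ⟨c1, c2⟩ := Pool.Agent.Helper28.TL.H82.conv_one (k := dd n / 100) hR hRL hT t hx
  have e0 : Nt (dd n / 100) T (RR n L) L t 0 = 0 := by
    unfold Nt
    rw [zero_mul, add_zero, intervalIntegral.integral_same, mul_zero]
  rw [e0, sub_zero] at c2
  exact ⟨r1, r3, r4, c1, c2⟩

end Pool.Agent.Helper8.OR
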