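import Pool.Agent.Helper93.OR.Defs
import Pool.Agent.Helper53.NS.Dev

/-!
# OR, block FI1, deterministic part: from finitely many statements at one `t` to all `θ`, all windows
-/

set_option autoImplicit false
open MeasureTheory Set Filter Topology
open Pool.Agent.Helper93.UG (zc sp IsOrd)
open Pool.Agent.Helper56.UG (zc_mono zc_union zc_pos fin_of)
open Pool.Agent.Helper57.NS (cnt)

namespace Pool.Agent.Helper8.OR

variable {T t : ℝ}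

lemma pre_sub (hs : 0 < sp T) {W : Set ℝ} {a b : ℝ} (hW : W ⊆ Icc a b) : {u : ℝ | (u - t) / sp T ∈ W} ⊆ Icc (t + a * sp T) (t + b * sp T) := by
  intro u hu
  have h := hW hu
  rw [Set.mem_Icc, le_div_iff₀ hs, div_le_iff₀ hs] at h
  exact ⟨by linarith [h.1], by linarith [h.2]⟩

lemma cnt_mono (hs : 0 < sp T) {W W' : Set ℝ} {a b : ℝ} (h : W ⊆ W') (hW : W' ⊆ Icc a b) : cnt T t W ≤ cnt T t W' := by
  unfold cnt
  exact_mod_cast zc_mono (I := {u : ℝ | (u - t) / sp T ∈ W}) (J := {u : ℝ | (u - t) / sp T ∈ W'}) (fun u hu => h hu) (pre_sub hs hW)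

lemma cnt_union (hs : 0 < sp T) {W W' : Set ℝ} {a b : ℝ} (hW : W ⊆ Icc a b) (hW' : W' ⊆ Icc a b) (hd : Disjoint W W') :
    cnt T t (W ∪ W') = cnt T t W + cnt T t W' := by
  unfold cnt
  have h := zc_union (I := {u : ℝ | (u - t) / sp T ∈ W}) (J := {u : ℝ | (u - t) / sp T ∈ W'}) (pre_sub hs hW) (pre_sub hs hW')
    (Set.disjoint_left.2 fun u hu hu' => Set.disjoint_left.1 hd hu hu')
  have e : {u : ℝ | (u - t) / sp T ∈ W ∪ W'} = {u : ℝ | (u - t) / sp T ∈ W} ∪ {u : ℝ | (u - t) / sp T ∈ W'} := rfl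
  rw [e, h]
  push_cast
  rfl

lemma cnt_split (hs : 0 < sp T) {x y : ℝ} (hx : 0 ≤ x) (hxy : x ≤ y) : cnt T t (Icc 0 y) = cnt T t (Ico 0 x) + cnt T t (Icc x y) := by
  rw [← cnt_union hs (a := 0) (b := y) (fun u hu => ⟨hu.1, hu.2.le.trans hxy⟩) (fun u hu => ⟨hx.trans hu.1, hu.2⟩)
    (Set.disjoint_left.2 fun u hu hu' => not_le.2 hu.2 hu'.1), Ico_union_Icc_eq_Icc hx hxy]

lemma cnt_pt (hs : 0 < sp T) {x : ℝ} (h : ¬ IsOrd (t + x * sp T)) : cnt T t (Icc x x) = 0 := by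
  unfold cnt
  by_contra hne
  have h0 : 0 < zc {u : ℝ | (u - t) / sp T ∈ Icc x x} := by
    rcases Nat.eq_zero_or_pos (zc {u : ℝ | (u - t) / sp T ∈ Icc x x}) with h1 | h1
    · exact absurd (by rw [h1]; simp) hne
    · exact h1
  obtain ⟨g, hg, hg'⟩ := zc_pos h0
  apply h
  have h1 : (g - t) / sp T = x := le_antisymm hg.2 hg.1
  have h2 : g = t + x * sp T := by
    rw [div_eq_iff hs.ne'] at h1
    linarith
  rwa [← h2]

lemma cnt_Ico (hs : 0 < sp T) {x : ℝ} (hx : 0 ≤ x) (h : ¬ IsOrd (t + x * sp T)) : cnt T t (Ico 0 x) = cnt T t (Icc 0 x) := by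
  rw [cnt_split hs hx le_rfl, cnt_pt hs h, add_zero]

/-- a point of a set of positive measure which is not an ordinate -/
lemma exists_good (hs : 0 < sp T) {S : Set ℝ} {a b : ℝ} (hS : S ⊆ Icc a b) (hv : 0 < volume S) : ∃ x ∈ S, ¬ IsOrd (t + x * sp T) := by
  by_contra hcon
  push Not at hcon
  have hfin : {x : ℝ | x ∈ Icc a b ∧ IsOrd (t + x * sp T)}.Finite := by
    have h1 := fin_of (I := Icc (t + a * sp T) (t + b * sp T)) (Subset.refl _)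
    refine (h1.image fun ρ : ℂ => (ρ.im - t) / sp T).subset ?_
    rintro x ⟨hx, ρ, hρ, hρ'⟩
    refine ⟨ρ, ⟨hρ, ?_⟩, ?_⟩
    · rw [hρ']
      exact ⟨by nlinarith [hx.1], by nlinarith [hx.2]⟩
    · show (ρ.im - t) / sp T = x
      rw [hρ', add_sub_cancel_left, mul_div_assoc, div_self hs.ne', mul_one]
  have hsub : S ⊆ {x : ℝ | x ∈ Icc a b ∧ IsOrd (t + x * sp T)} := fun x hx => ⟨hS hx, hcon x hx⟩
  have h0 : volume S = 0 := measure_mono_null hsub (hfin.measure_zero volume)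
  rw [h0] at hv
  exact lt_irrefl _ hv

/-- all `θ` from the grid -/
lemma spec_of {δ L : ℝ} {N : ℝ → ℝ} (hδ : 0 < δ) (hδ1 : δ ≤ 1) (hL : 1 ≤ L)
    (hsp : ∀ k : ℕ, (k : ℝ) * (δ / 8) ≤ 1 - δ / 2 → ∀ σ : ℝ, (σ = 1 ∨ σ = -1) →
      ENNReal.ofReal (L ^ (1 - ((k : ℝ) * (δ / 8)) ^ 2 - δ / 2)) ≤
        volume {x : ℝ | x ∈ Icc 0 L ∧ ((k : ℝ) * (δ / 8)) / Real.pi * Real.log L ≤ σ * N x}) :
    ∀ θ σ : ℝ, 0 ≤ θ → θ ≤ 1 - δ → (σ = 1 ∨ σ = -1) → ENNReal.ofReal (L ^ (1 - θ ^ 2 - δ)) ≤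
      volume {x : ℝ | x ∈ Icc 0 L ∧ θ / Real.pi * Real.log L ≤ σ * N x} := by
  intro θ σ hθ hθ1 hσ
  have h8 : 0 < δ / 8 := by linarith
  set k : ℕ := ⌈θ / (δ / 8)⌉₊ with hk
  have h1 : θ ≤ (k : ℝ) * (δ / 8) := by
    rw [← div_le_iff₀ h8]
    exact Nat.le_ceil _
  have h2 : (k : ℝ) * (δ / 8) ≤ θ + δ / 8 := by
    have h3 : (k : ℝ) < θ / (δ / 8) + 1 := Nat.ceil_lt_add_one (by positivity)
    have h4 := mul_le_mul_of_nonneg_right h3.le h8.le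
    rw [add_mul, div_mul_cancel₀ _ h8.ne', one_mul] at h4
    exact h4
  have hlog : 0 ≤ Real.log L := Real.log_nonneg hL
  refine le_trans (ENNReal.ofReal_le_ofReal (Real.rpow_le_rpow_of_exponent_le hL ?_)) ((hsp k (by linarith) σ hσ).trans (measure_mono ?_))
  · nlinarith
  · rintro x ⟨hx, hx'⟩
    refine ⟨hx, le_trans ?_ hx'⟩
    exact mul_le_mul_of_nonneg_right (div_le_div_of_nonneg_right h1 Real.pi_pos.le) hlog

/-- windows with large deviation -/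
lemma win_of {δ L : ℝ} (hs : 0 < sp T) (hδ : 0 < δ) (hL : 1 ≤ L)
    (hlo : ∀ σ : ℝ, (σ = 1 ∨ σ = -1) → 0 < volume {x : ℝ | x ∈ Icc 0 (L / 2) ∧ (1 - δ / 2) / Real.pi * Real.log L ≤ σ * (cnt T t (Icc 0 x) - x)})
    (hhi : ∀ σ : ℝ, (σ = 1 ∨ σ = -1) → 0 < volume {x : ℝ | x ∈ Icc (L / 2) L ∧ (1 - δ / 2) / Real.pi * Real.log L ≤ σ * (cnt T t (Icc 0 x) - x)}) :
    ∀ σ : ℝ, (σ = 1 ∨ σ = -1) → ∃ x y : ℝ, 0 ≤ x ∧ x ≤ y ∧ y ≤ L ∧
      (2 / Real.pi - δ) * Real.log L ≤ σ * (cnt T t (Icc x y) - (y - x)) := by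
  have hpi := Real.pi_gt_three
  have hlog : 0 ≤ Real.log L := Real.log_nonneg hL
  have hc : (2 / Real.pi - δ) * Real.log L ≤ (1 - δ / 2) / Real.pi * Real.log L + (1 - δ / 2) / Real.pi * Real.log L := by
    rw [← add_mul]
    apply mul_le_mul_of_nonneg_right _ hlog
    have h1 : (1 - δ / 2) / Real.pi + (1 - δ / 2) / Real.pi = 2 / Real.pi - δ / Real.pi := by ring
    rw [h1]
    have h2 : δ / Real.pi ≤ δ := div_le_self hδ.le (by linarith)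
    linarith
  intro σ hσ
  have hneg : -σ = 1 ∨ -σ = -1 := by rcases hσ with h | h <;> simp [h]
  obtain ⟨x, ⟨hx, hx'⟩, hox⟩ := exists_good (t := t) hs (S := {x : ℝ | x ∈ Icc 0 (L / 2) ∧ (1 - δ / 2) / Real.pi * Real.log L ≤ -σ * (cnt T t (Icc 0 x) - x)})
    (a := 0) (b := L / 2) (fun _ h => h.1) (hlo _ hneg)
  obtain ⟨y, ⟨hy, hy'⟩, -⟩ := exists_good (t := t) hs (S := {x : ℝ | x ∈ Icc (L / 2) L ∧ (1 - δ / 2) / Real.pi * Real.log L ≤ σ * (cnt T t (Icc 0 x) - x)})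
    (a := L / 2) (b := L) (fun _ h => h.1) (hhi _ hσ)
  have hxy : x ≤ y := hx.2.trans hy.1
  refine ⟨x, y, hx.1, hxy, hy.2, hc.trans ?_⟩
  have h1 := cnt_split (t := t) hs hx.1 hxy
  rw [cnt_Ico hs hx.1 hox] at h1
  have h2 : cnt T t (Icc x y) - (y - x) = (cnt T t (Icc 0 y) - y) - (cnt T t (Icc 0 x) - x) := by rw [h1]; ring
  rw [h2, mul_sub]
  linarith

/-- all windows from the windows at `0` -/
lemma up_of {C L : ℝ} (hs : 0 < sp T) (hL : 0 ≤ L) (hub : ∀ x ∈ Icc 0 L, |cnt T t (Icc 0 x) - x| ≤ C * Real.log L) :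
    ∀ x y : ℝ, 0 ≤ x → x ≤ y → y ≤ L → |cnt T t (Icc x y) - (y - x)| ≤ (2 * C) * Real.log L := by
  intro x y hx hxy hy
  have h1 := cnt_split (t := t) hs hx hxy
  have h2 : cnt T t (Ico 0 x) ≤ cnt T t (Icc 0 x) := cnt_mono hs Ico_subset_Icc_self (Subset.refl _)
  have hy' := abs_le.1 (hub y ⟨hx.trans hxy, hy⟩)
  have hx' := abs_le.1 (hub x ⟨hx, hxy.trans hy⟩)
  have h0 : 0 ≤ C * Real.log L := (abs_nonneg _).trans (hub 0 ⟨le_rfl, hL⟩)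
  have h3 : x ≤ cnt T t (Ico 0 x) + C * Real.log L := by
    have hn : 0 ≤ cnt T t (Ico 0 x) := Nat.cast_nonneg _
    refine le_of_forall_lt fun z hz => ?_
    rcases lt_or_ge z 0 with hz0 | hz0
    · linarith
    · obtain ⟨w, hw1, hw2⟩ := exists_between hz
      have hw0 : 0 ≤ w := hz0.trans hw1.le
      have h4 : cnt T t (Icc 0 w) ≤ cnt T t (Ico 0 x) :=
        cnt_mono hs (a := 0) (b := x) (fun u hu => ⟨hu.1, hu.2.trans_lt hw2⟩) Ico_subset_Icc_self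
      have h5 := abs_le.1 (hub w ⟨hw0, hw2.le.trans (hxy.trans hy)⟩)
      linarith [h5.1]
  rw [abs_le]
  constructor <;> linarith [hy'.1, hy'.2, hx'.1, hx'.2]

/-- the properties of the final theorem at one `t`, from a grid of `θ`, the two halves and the upper bound -/
theorem fin_of_grid {δ C L : ℝ} (hT : 3 ≤ T) (hL : 1 ≤ L) (hδ : 0 < δ) (hδ1 : δ ≤ 1)
    (hsp : ∀ k : ℕ, (k : ℝ) * (δ / 8) ≤ 1 - δ / 2 → ∀ σ : ℝ, (σ = 1 ∨ σ = -1) →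
      ENNReal.ofReal (L ^ (1 - ((k : ℝ) * (δ / 8)) ^ 2 - δ / 2)) ≤
        volume {x : ℝ | x ∈ Icc 0 L ∧ ((k : ℝ) * (δ / 8)) / Real.pi * Real.log L ≤ σ * (cnt T t (Icc 0 x) - x)})
    (hlo : ∀ σ : ℝ, (σ = 1 ∨ σ = -1) → ENNReal.ofReal (L ^ (1 - (1 - δ / 2) ^ 2 - δ / 2)) ≤
      volume {x : ℝ | x ∈ Icc 0 (L / 2) ∧ (1 - δ / 2) / Real.pi * Real.log L ≤ σ * (cnt T t (Icc 0 x) - x)})
    (hhi : ∀ σ : ℝ, (σ = 1 ∨ σ = -1) → ENNReal.ofReal (L ^ (1 - (1 - δ / 2) ^ 2 - δ / 2)) ≤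
      volume {x : ℝ | x ∈ Icc (L / 2) L ∧ (1 - δ / 2) / Real.pi * Real.log L ≤ σ * (cnt T t (Icc 0 x) - x)})
    (hub : ∀ x ∈ Icc 0 L, |cnt T t (Icc 0 x) - x| ≤ C * Real.log L) :
    (∀ θ σ : ℝ, 0 ≤ θ → θ ≤ 1 - δ → (σ = 1 ∨ σ = -1) → ENNReal.ofReal (L ^ (1 - θ ^ 2 - δ)) ≤
      volume {x : ℝ | x ∈ Icc 0 L ∧ θ / Real.pi * Real.log L ≤ σ * (cnt T t (Icc 0 x) - x)}) ∧
    (∀ σ : ℝ, (σ = 1 ∨ σ = -1) → ∃ x y : ℝ, 0 ≤ x ∧ x ≤ y ∧ y ≤ L ∧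
      (2 / Real.pi - δ) * Real.log L ≤ σ * (cnt T t (Icc x y) - (y - x))) ∧
    (∀ x y : ℝ, 0 ≤ x → x ≤ y → y ≤ L → |cnt T t (Icc x y) - (y - x)| ≤ (2 * C) * Real.log L) := by
  have hs : 0 < sp T := by
    unfold sp
    have := Real.pi_pos
    have := Real.log_pos (by linarith : 1 < T)
    positivity
  have hp : 0 < ENNReal.ofReal (L ^ (1 - (1 - δ / 2) ^ 2 - δ / 2)) := by
    rw [ENNReal.ofReal_pos]
    exact Real.rpow_pos_of_pos (by linarith) _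
  exact ⟨spec_of (N := fun x => cnt T t (Icc 0 x) - x) hδ hδ1 hL hsp,
    win_of hs hδ hL (fun σ hσ => hp.trans_le (hlo σ hσ)) (fun σ hσ => hp.trans_le (hhi σ hσ)), up_of hs (by linarith) hub⟩

end Pool.Agent.Helper8.OR
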